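import Mathlib
import Pool.Agent.V1149.Labeling.Emt

/-!
# Two disjoint copies of a cycle of length divisible by four are edge-magic total
-/

namespace Pool.Agent.Results.MP_87e2cd_co.TwoCyclesZeroModFour

open Pool.Agent.V1149.Labeling SimpleGraph

/-- Labels of the first cycle of length `4 t`. -/
def X1 (t i : ℕ) : ℕ :=
  if i ≤ 4 * t - 6 then (if i % 2 = 0 then 2 * t + 2 + i / 2 else 6 * t + 3 + i / 2)
  else if i = 4 * t - 5 then 4 * t
  else if i = 4 * t - 4 then 8 * t
  else if i = 4 * t - 3 then 1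
  else if i = 4 * t - 2 then 12 * t + 1
  else 6 * t + 1

/-- Labels of the second cycle of length `4 t`. -/
def X2 (t i : ℕ) : ℕ :=
  if i ≤ 4 * t - 4 then (if i % 2 = 0 then 2 + i / 2 else 4 * t + 1 + i / 2)
  else if i = 4 * t - 3 then 6 * t
  else if i = 4 * t - 2 then 6 * t - 1
  else 8 * t + 2

theorem cover (t : ℕ) (ht : 2 ≤ t) (l : ℕ) (h1 : 1 ≤ l) (h2 : l ≤ 4 * (4 * t)) :
    (∃ i, i < 4 * t ∧ (X1 t i = l ∨ X2 t i = l)) ∨
    (∃ i, i + 1 < 4 * t ∧ (X1 t i + X1 t (i + 1) + l = 20 * t + 3 ∨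
      X2 t i + X2 t (i + 1) + l = 20 * t + 3)) ∨
    (X1 t (4 * t - 1) + X1 t 0 + l = 20 * t + 3 ∨ X2 t (4 * t - 1) + X2 t 0 + l = 20 * t + 3) := by
  by_cases c1 : l = 1
  · exact Or.inl ⟨4 * t - 3, by omega, Or.inl (by unfold X1; (repeat (first | rw [if_pos (by omega)] | rw [if_neg (by omega)])) <;>
      (first | omega | (split_ifs <;> omega)))⟩
  by_cases c2 : l ≤ 2 * t
  · exact Or.inl ⟨2 * (l - 2), by omega, Or.inr (by unfold X2; (repeat (first | rw [if_pos (by omega)] | rw [if_neg (by omega)])) <;>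
      (first | omega | (split_ifs <;> omega)))⟩
  by_cases c3 : l = 2 * t + 1
  · exact Or.inr (Or.inl ⟨4 * t - 2, by omega, Or.inl (by unfold X1; (repeat (first | rw [if_pos (by omega)] | rw [if_neg (by omega)])) <;>
      (first | omega | (split_ifs <;> omega)))⟩)
  by_cases c4 : l ≤ 4 * t - 1
  · exact Or.inl ⟨2 * (l - 2 * t - 2), by omega, Or.inl (by unfold X1; (repeat (first | rw [if_pos (by omega)] | rw [if_neg (by omega)])) <;>
      (first | omega | (split_ifs <;> omega)))⟩
  by_cases c5 : l = 4 * t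
  · exact Or.inl ⟨4 * t - 5, by omega, Or.inl (by unfold X1; (repeat (first | rw [if_pos (by omega)] | rw [if_neg (by omega)])) <;>
      (first | omega | (split_ifs <;> omega)))⟩
  by_cases c6 : l ≤ 6 * t - 2
  · exact Or.inl ⟨2 * (l - 4 * t - 1) + 1, by omega, Or.inr (by unfold X2; (repeat (first | rw [if_pos (by omega)] | rw [if_neg (by omega)])) <;>
      (first | omega | (split_ifs <;> omega)))⟩
  by_cases c7 : l = 6 * t - 1
  · exact Or.inl ⟨4 * t - 2, by omega, Or.inr (by unfold X2; (repeat (first | rw [if_pos (by omega)] | rw [if_neg (by omega)])) <;>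
      (first | omega | (split_ifs <;> omega)))⟩
  by_cases c8 : l = 6 * t
  · exact Or.inl ⟨4 * t - 3, by omega, Or.inr (by unfold X2; (repeat (first | rw [if_pos (by omega)] | rw [if_neg (by omega)])) <;>
      (first | omega | (split_ifs <;> omega)))⟩
  by_cases c9 : l = 6 * t + 1
  · exact Or.inl ⟨4 * t - 1, by omega, Or.inl (by unfold X1; (repeat (first | rw [if_pos (by omega)] | rw [if_neg (by omega)])) <;>
      (first | omega | (split_ifs <;> omega)))⟩
  by_cases c10 : l = 6 * t + 2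
  · exact Or.inr (Or.inl ⟨4 * t - 2, by omega, Or.inr (by unfold X2; (repeat (first | rw [if_pos (by omega)] | rw [if_neg (by omega)])) <;>
      (first | omega | (split_ifs <;> omega)))⟩)
  by_cases c11 : l ≤ 8 * t - 1
  · exact Or.inl ⟨2 * (l - 6 * t - 3) + 1, by omega, Or.inl (by unfold X1; (repeat (first | rw [if_pos (by omega)] | rw [if_neg (by omega)])) <;>
      (first | omega | (split_ifs <;> omega)))⟩
  by_cases c12 : l = 8 * t
  · exact Or.inl ⟨4 * t - 4, by omega, Or.inl (by unfold X1; (repeat (first | rw [if_pos (by omega)] | rw [if_neg (by omega)])) <;>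
      (first | omega | (split_ifs <;> omega)))⟩
  by_cases c13 : l = 8 * t + 1
  · exact Or.inr (Or.inl ⟨4 * t - 3, by omega, Or.inl (by unfold X1; (repeat (first | rw [if_pos (by omega)] | rw [if_neg (by omega)])) <;>
      (first | omega | (split_ifs <;> omega)))⟩)
  by_cases c14 : l = 8 * t + 2
  · exact Or.inl ⟨4 * t - 1, by omega, Or.inr (by unfold X2; (repeat (first | rw [if_pos (by omega)] | rw [if_neg (by omega)])) <;>
      (first | omega | (split_ifs <;> omega)))⟩
  by_cases c15 : l = 8 * t + 3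
  · exact Or.inr (Or.inl ⟨4 * t - 5, by omega, Or.inl (by unfold X1; (repeat (first | rw [if_pos (by omega)] | rw [if_neg (by omega)])) <;>
      (first | omega | (split_ifs <;> omega)))⟩)
  by_cases c16 : l = 8 * t + 4
  · exact Or.inr (Or.inl ⟨4 * t - 3, by omega, Or.inr (by unfold X2; (repeat (first | rw [if_pos (by omega)] | rw [if_neg (by omega)])) <;>
      (first | omega | (split_ifs <;> omega)))⟩)
  by_cases c17 : l ≤ 12 * t - 2
  · exact Or.inr (Or.inl ⟨12 * t - 2 - l, by omega, Or.inl (by unfold X1; (repeat (first | rw [if_pos (by omega)] | rw [if_neg (by omega)])) <;>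
      (first | omega | (split_ifs <;> omega)))⟩)
  by_cases c18 : l = 12 * t - 1
  · exact Or.inr (Or.inr (Or.inr (by unfold X2; (repeat (first | rw [if_pos (by omega)] | rw [if_neg (by omega)])) <;>
      (first | omega | (split_ifs <;> omega)))))
  by_cases c19 : l = 12 * t
  · exact Or.inr (Or.inr (Or.inl (by unfold X1; (repeat (first | rw [if_pos (by omega)] | rw [if_neg (by omega)])) <;>
      (first | omega | (split_ifs <;> omega)))))
  by_cases c20 : l = 12 * t + 1
  · exact Or.inl ⟨4 * t - 2, by omega, Or.inl (by unfold X1; (repeat (first | rw [if_pos (by omega)] | rw [if_neg (by omega)])) <;>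
      (first | omega | (split_ifs <;> omega)))⟩
  by_cases c21 : l = 12 * t + 2
  · exact Or.inr (Or.inl ⟨4 * t - 4, by omega, Or.inl (by unfold X1; (repeat (first | rw [if_pos (by omega)] | rw [if_neg (by omega)])) <;>
      (first | omega | (split_ifs <;> omega)))⟩)
  by_cases c22 : l = 12 * t + 3
  · exact Or.inr (Or.inl ⟨4 * t - 4, by omega, Or.inr (by unfold X2; (repeat (first | rw [if_pos (by omega)] | rw [if_neg (by omega)])) <;>
      (first | omega | (split_ifs <;> omega)))⟩)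
  by_cases c23 : l = 12 * t + 4
  · exact Or.inr (Or.inl ⟨4 * t - 6, by omega, Or.inl (by unfold X1; (repeat (first | rw [if_pos (by omega)] | rw [if_neg (by omega)])) <;>
      (first | omega | (split_ifs <;> omega)))⟩)
  · exact Or.inr (Or.inl ⟨16 * t - l, by omega, Or.inr (by unfold X2; (repeat (first | rw [if_pos (by omega)] | rw [if_neg (by omega)])) <;>
      (first | omega | (split_ifs <;> omega)))⟩)

/-- Labels for `n = 4`, first cycle. -/
def Y1 (i : ℕ) : ℕ := if i = 0 then 1 else if i = 1 then 6 else if i = 2 then 3 else 7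
/-- Labels for `n = 4`, second cycle. -/
def Y2 (i : ℕ) : ℕ := if i = 0 then 9 else if i = 1 then 2 else if i = 2 then 4 else 8

theorem cover4 (l : ℕ) (h1 : 1 ≤ l) (h2 : l ≤ 4 * 4) :
    (∃ i, i < 4 ∧ (Y1 i = l ∨ Y2 i = l)) ∨
    (∃ i, i + 1 < 4 ∧ (Y1 i + Y1 (i + 1) + l = 22 ∨ Y2 i + Y2 (i + 1) + l = 22)) ∨
    (Y1 (4 - 1) + Y1 0 + l = 22 ∨ Y2 (4 - 1) + Y2 0 + l = 22) := by
  have h : ∀ l ∈ Finset.Icc 1 16, (∃ i ∈ Finset.range 4, (Y1 i = l ∨ Y2 i = l)) ∨
    (∃ i ∈ Finset.range 3, (Y1 i + Y1 (i + 1) + l = 22 ∨ Y2 i + Y2 (i + 1) + l = 22)) ∨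
    (Y1 (4 - 1) + Y1 0 + l = 22 ∨ Y2 (4 - 1) + Y2 0 + l = 22) := by decide
  rcases h l (Finset.mem_Icc.2 ⟨h1, by omega⟩) with ⟨i, hi, h⟩ | ⟨i, hi, h⟩ | h
  · exact Or.inl ⟨i, Finset.mem_range.1 hi, h⟩
  · exact Or.inr (Or.inl ⟨i, by have := Finset.mem_range.1 hi; omega, h⟩)
  · exact Or.inr (Or.inr h)

/-- **Full answer to Q1.** For every `n ≥ 4` divisible by four, the disjoint union of two
`n`-cycles is edge-magic total. -/
theorem result (n : ℕ) (hn : 4 ≤ n) (h4 : n % 4 = 0) :
    IsEdgeMagic (cycleGraph n ⊕g cycleGraph n) := by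
  obtain ⟨t, rfl⟩ : ∃ t, n = 4 * t := ⟨n / 4, by omega⟩
  rcases Nat.lt_or_ge t 2 with h | h
  · have ht : t = 1 := by omega
    subst ht
    exact two_cycles_emt 4 22 (by norm_num) Y1 Y2 cover4
  · exact two_cycles_emt (4 * t) (20 * t + 3) (by omega) (X1 t) (X2 t) (cover t h)

end Pool.Agent.Results.MP_87e2cd_co.TwoCyclesZeroModFour
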